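import Pool.Agent.W603.DA.TorusMaps

/-!
Projective varieties which admit no nonconstant holomorphic map from some one-dimensional complex
torus are hyperbolic, for two classes of varieties.
-/

set_option autoImplicit false

namespace Pool.Agent.Results.MP_45e720_ag.OneTorusSuffices

open MvPolynomial Pool.Agent.W603.DA Pool.Agent.H159R3.GGL Pool.Agent.H159R3.War

/-- Let `X` be the projective variety in `P^n` over the complex numbers with the equations `F i = 0`
(any number of forms; `X` may be singular and reducible). Suppose that
(1) each `F i` is a sum of `s` powers `ℓ ^ d` of linear forms with `(s - 1) ^ 2 ≤ d`, or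
(2) the exponents of each `F i` are multiples of some `N` that is at least the square of the number
of the monomials of `F i` minus one.
If for one lattice `Λ` in the complex plane all holomorphic maps from the torus `ℂ / Λ` to `X` are
constant, then all holomorphic maps from the complex plane to `X` are constant. -/
theorem result {n : ℕ} {ι : Type} (F : ι → MvPolynomial (Fin (n + 1)) ℂ)
    (hF : ∀ i, ∃ d, (F i).IsHomogeneous d)
    (hC : (∀ i, SmallWaring (F i)) ∨ ∀ i, PowerSparse (F i)) (L : PeriodPair)
    (hL : ∀ Φ, TorusMap L F Φ → ∀ z w, Φ z = Φ w) :
    ∀ f, ¬ Pool.Agent.H159R3.GGL.EntireCurve F f := by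
  intro f
  rcases hC with h | h
  · exact brody_waring h L hL f
  · exact brody_sparse hF h L hL f

end Pool.Agent.Results.MP_45e720_ag.OneTorusSuffices
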